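import Mathlib

/-!
# Statements for the K4-free multiplicity-four construction (MP_b4ba96_co, frozen S10933)

Lattice version of the Bollobas-Erdos graph in a Euclidean ball, then an explicit base graph
on `Fin N`, then exact tuning of the degrees with `2 q` extra vertices.
-/

set_option autoImplicit false

namespace Pool.Agent.W376.RT

open Filter

/-- squared Euclidean norm on the integer lattice -/
def ns {h : ℕ} (x : Fin h → ℤ) : ℤ := ∑ i, x i ^ 2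

/-- inner product on the integer lattice -/
def ip {h : ℕ} (x y : Fin h → ℤ) : ℤ := ∑ i, x i * y i

/-- number of lattice points in the closed ball of radius `R` -/
noncomputable def cnt (h : ℕ) (R : ℝ) : ℕ := {x : Fin h → ℤ | (ns x : ℝ) ≤ R ^ 2}.ncard

/-- RT-A1. Brunn-Minkowski step: a set of lattice points in the ball of radius `R` without
two (possibly equal) points with `|a + b| < σ` is small. -/
def S_BM : Prop := ∀ (h : ℕ) (R σ : ℝ) (A : Set (Fin h → ℤ)), 0 ≤ R → 2 * √(h : ℝ) ≤ σ →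
  (∀ a ∈ A, (ns a : ℝ) ≤ R ^ 2) → (∀ a ∈ A, ∀ b ∈ A, σ ^ 2 ≤ (ns (a + b) : ℝ)) →
  A.ncard ≤ cnt h (√((R + √(h : ℝ)) ^ 2 - (σ - 2 * √(h : ℝ)) ^ 2 / 4) + √(h : ℝ))

/-- RT-A2. Asymptotics of the number of lattice points in a ball. -/
def S_CNT : Prop := ∀ h : ℕ, 1 ≤ h → ∃ V : ℝ, 0 < V ∧ ∀ c : ℝ, 0 < c →
  Tendsto (fun R : ℕ => (cnt h (c * R) : ℝ) / (R : ℝ) ^ h) atTop (nhds (c ^ h * V))

/-- RT-A3. Slabs through the origin contain few lattice points of the ball. -/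
def S_SLAB : Prop := ∀ (h J : ℕ) (s : ℝ), 1 ≤ h → 1 ≤ J → 1 ≤ s → ∃ R0 : ℕ, ∀ R : ℕ, R0 ≤ R →
  ∀ x : Fin h → ℤ, (R : ℝ) ^ 2 ≤ 4 * (ns x : ℝ) → (ns x : ℝ) ≤ (R : ℝ) ^ 2 →
  J * {y : Fin h → ℤ | (ns y : ℝ) ≤ (R : ℝ) ^ 2 ∧
    4 * |(ip x y : ℝ)| < s ^ 2 * (R : ℝ) ^ 2 / h}.ncard ≤
    cnt h ((1 + 30 * (J : ℝ) ^ 2 * s ^ 4 / (h : ℝ) ^ 2) * R)

/-- RT-A4 target. The finite Bollobas-Erdos configuration. -/
def S_BE : Prop := ∀ η : ℝ, 0 < η → ∃ M : ℕ, 0 < M ∧ ∃ T H : Fin M → Fin M → Prop,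
  (∀ a b, T a b → T b a) ∧ (∀ a b, H a b → H b a) ∧
  (∀ a b c, T a b → T b c → T a c → False) ∧
  (∀ a a' b b', T a a' → T b b' → H a b → H a b' → H a' b → H a' b' → False) ∧
  (∀ A : Set (Fin M), (∀ a ∈ A, ∀ b ∈ A, ¬ T a b) → (A.ncard : ℝ) ≤ η * M) ∧
  (∀ a, (1 / 2 - η) * M ≤ ({b | H a b}.ncard : ℝ) ∧ ({b | H a b}.ncard : ℝ) ≤ M / 2)

/-- The two sides are the even and the odd vertices; each side spans no triangle. -/
def SideTriFree {N : ℕ} (G : SimpleGraph (Fin N)) : Prop :=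
  ∀ a b c : Fin N, (a : ℕ) % 2 = (b : ℕ) % 2 → (b : ℕ) % 2 = (c : ℕ) % 2 →
    G.Adj a b → G.Adj b c → G.Adj a c → False

/-- RT-B target. The base graph. -/
def S_BASE : Prop := ∀ γ : ℝ, 0 < γ → ∃ N0 : ℕ, ∀ N : ℕ, N0 ≤ N → ∃ G : SimpleGraph (Fin N),
  G.CliqueFree 4 ∧ SideTriFree G ∧
  (∀ S : Set (Fin N), (∀ a ∈ S, ∀ b ∈ S, ¬ G.Adj a b) → (S.ncard : ℝ) ≤ γ * N) ∧
  (∀ v : Fin N, |((G.neighborSet v).ncard : ℝ) - ((v : ℕ) : ℝ) / 4| ≤ γ * N)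

/-- RT-C. Balanced bipartite graphs with prescribed left degrees. -/
def S_BAL : Prop := ∀ (N q : ℕ) (e : Fin N → ℕ), 0 < q → (∀ v, e v ≤ q) →
  ∃ R : Fin N → Fin q → Prop, (∀ v, {j | R v j}.ncard = e v) ∧
    ∀ j, {v | R v j}.ncard = (∑ v, e v) / q ∨ {v | R v j}.ncard = (∑ v, e v) / q + 1

/-- The property asked for in S10933, for one graph. -/
def Good {V : Type} (G : SimpleGraph V) : Prop :=
  G.CliqueFree 4 ∧ (∀ v : V, 1 ≤ (G.neighborSet v).ncard) ∧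
  (∀ d : ℕ, {v : V | (G.neighborSet v).ncard = d}.ncard ≤ 4) ∧
  (∃ d : ℕ, {v : V | (G.neighborSet v).ncard = d}.ncard = 4)

/-- RT-D target. Exact tuning of the degrees. -/
def S_TUNE : Prop := ∀ (N k : ℕ) (G : SimpleGraph (Fin N)), 1 ≤ k → 200 * k ≤ N →
  G.CliqueFree 4 → SideTriFree G →
  (∀ v : Fin N, (G.neighborSet v).ncard ≤ (v : ℕ) / 4 + 2 * k ∧
    (v : ℕ) / 4 ≤ (G.neighborSet v).ncard + 2 * k) →
  ∃ G' : SimpleGraph (Fin N ⊕ (Bool × Fin (16 * k))), Good G' ∧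
    ∀ a b : Fin N, G'.Adj (Sum.inl a) (Sum.inl b) ↔ G.Adj a b

/-- The frozen statement S10933. -/
def S_MAIN : Prop := ∃ N : ℕ, ∃ G : (n : ℕ) → SimpleGraph (Fin n),
  (∀ n ≥ N,
    (G n).CliqueFree 4 ∧
    (∀ v : Fin n, 1 ≤ ((G n).neighborSet v).ncard) ∧
    (∀ d : ℕ, {v : Fin n | ((G n).neighborSet v).ncard = d}.ncard ≤ 4) ∧
    (∃ d : ℕ, {v : Fin n | ((G n).neighborSet v).ncard = d}.ncard = 4)) ∧
  Filter.Tendsto (fun n : ℕ => ((G n).indepNum : ℝ) / (n : ℝ)) Filter.atTop (nhds 0)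

end Pool.Agent.W376.RT
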